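import Pool.Agent.helper93.VN.SpecL
import Pool.Agent.helper18.VQ.RLL

/-!
# vn:LLL: large deviations along regular curves (general negatively curved surfaces)
-/

set_option autoImplicit false

open scoped MatrixGroups ContDiff Topology UpperHalfPlane ComplexConjugate ENNReal
open UpperHalfPlane MeasureTheory Filter Set

namespace Pool.Agent.VN

open Pool.Agent.RS Pool.Agent.VQ
open Pool.Agent.RPQ (mean)
open Pool.Agent.VQE (nm)

theorem LLL_FM {C : ℝ} (hC : 1 ≤ C) : 2 ≤ FM C := by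
  unfold FM
  have h1 : 1 ≤ Real.exp (40 * C) := Real.one_le_exp (by positivity)
  have h2 : (2 : ℝ) ≤ (10 * C) ^ 40 := by
    calc (2 : ℝ) ≤ 10 ^ 40 := by norm_num
      _ ≤ (10 * C) ^ 40 := pow_le_pow_left₀ (by norm_num) (by linarith) 40
  nlinarith

theorem LLL_proof (hLGF : LGF_stmt) (hLLC : LLC_stmt) (hLUW : LUW_stmt) (hLVA : LVA_stmt) (hRWI : VQ.RWI_stmt) : LLL_stmt := by
  intro Γ Fd k C F hΓ hFd hk hC hFM h e hh he
  classical
  have hF2 : 2 ≤ F := (LLL_FM hC).trans hFM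
  have hF0 : 0 < F := by linarith
  obtain ⟨L, hL⟩ := hh.lip
  set Lh := max L 0 with hLhdef
  have hLh0 : 0 ≤ Lh := le_max_right _ _
  have hLh : ∀ z w, |h z - h w| ≤ Lh * dist z w := fun z w =>
    (hL z w).trans (mul_le_mul_of_nonneg_right (le_max_left _ _) dist_nonneg)
  have hhc : Continuous h := hh.inv.1
  have hexp : 0 < Real.exp 1 := Real.exp_pos 1
  have h2e1 : 1 ≤ 2 * Real.exp 1 := by linarith [Real.add_one_le_exp (1 : ℝ)]
  have h2e0 : 0 < 2 * Real.exp 1 := by linarith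
  set v0 : ℝ := (2 * Real.exp 1) ^ (-(8 / e)) with hv0def
  have hv0 : 0 < v0 := Real.rpow_pos_of_pos h2e0 _
  set l0 : ℝ := min (1 / F ^ 5) (e / (8 * F * (Lh + 1))) with hl0def
  have hl0 : 0 < l0 := lt_min (by positivity) (by positivity)
  have hl0a : l0 ≤ 1 / F ^ 5 := min_le_left _ _
  have hl0c : 2 * l0 ≤ 1 / F ^ 4 := by
    have h1 : 2 * (1 / F ^ 5) ≤ 1 / F ^ 4 := by
      rw [le_div_iff₀ (by positivity)]
      have h2 : 2 * (1 / F ^ 5) * F ^ 4 = 2 / F := by field_simp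
      rw [h2, div_le_one hF0]
      exact hF2
    linarith
  have hl0b : F * Lh * (2 * l0) ≤ e / 4 := by
    have h1 : l0 ≤ e / (8 * F * (Lh + 1)) := min_le_right _ _
    calc F * Lh * (2 * l0) ≤ F * (Lh + 1) * (2 * (e / (8 * F * (Lh + 1)))) := by
          refine mul_le_mul (mul_le_mul_of_nonneg_left (by linarith) hF0.le) (by linarith) (by linarith) (by positivity)
      _ = e / 4 := by field_simp; norm_num
  refine ⟨v0, l0, hv0, hl0, hl0a, fun T0 E0 e2 hT0 hE0 he2 => ?_⟩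
  have hT00 : 0 < T0 := by linarith
  set μ := min E0 k with hμ
  have hμ0 : 0 < μ := lt_min hE0 hk
  refine ⟨e2 / (4 * T0), max 1 (max ((2 / μ) ^ (4 : ℝ)) (Real.exp (T0 / e2 * (8 / e + 2)))), by positivity,
    le_max_left _ _, ?_⟩
  intro R D hR hF1 hU E γ x b c ℓ v v' hE hγ hvv hl
  have hR1 : 1 ≤ R := (le_max_left _ _).trans hR
  have hR2 : (2 / μ) ^ (4 : ℝ) ≤ R := ((le_max_left _ _).trans (le_max_right _ _)).trans hR
  have hR3 : Real.exp (T0 / e2 * (8 / e + 2)) ≤ R := ((le_max_right _ _).trans (le_max_right _ _)).trans hR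
  have hR0 : 0 < R := by linarith
  have hEμ : |E| ≤ μ := by
    refine hE.trans ?_
    have h1 : R ^ (-(1 / 4) : ℝ) ≤ ((2 / μ) ^ (4 : ℝ)) ^ (-(1 / 4) : ℝ) :=
      Real.rpow_le_rpow_of_nonpos (by positivity) hR2 (by norm_num)
    have h2 : ((2 / μ) ^ (4 : ℝ)) ^ (-(1 / 4) : ℝ) = μ / 2 := by
      rw [← Real.rpow_mul (by positivity)]
      have h3 : (4 : ℝ) * (-(1 / 4) : ℝ) = -1 := by norm_num
      rw [h3, Real.rpow_neg_one, inv_div]
    rw [h2] at h1
    linarith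
  have hEE : |E| ≤ E0 := hEμ.trans (min_le_left _ _)
  have hEd : |E| ≤ k := hEμ.trans (min_le_right _ _)
  have hadd : ∀ s t g, D.fl E (s + t) g = D.fl E s (D.fl E t g) := fun s t g => hF1.add E s t g hEd
  have hzero : ∀ g, D.fl E 0 g = g := fun g => hF1.zero E g
  have hfl : ∀ g, Continuous fun t => D.fl E t g := by
    intro g
    have h1 : Continuous fun t : ℝ => ((E, t, g) : ℝ × ℝ × SL(2, ℝ)) := by fun_prop
    exact hF1.cont.comp_continuous h1 fun t => hEd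
  obtain ⟨m0, m1⟩ := RLL_mean Fd h hh.bd
  set m : ℝ := mean Fd h with hm
  set z : ℝ := (2 * Real.exp 1) ^ (8 / e) with hz
  have hz0 : 0 < z := Real.rpow_pos_of_pos h2e0 _
  have hz1 : 1 ≤ z := Real.one_le_rpow h2e1 (by positivity)
  have hzv : z * v0 = 1 := by
    rw [hz, hv0def, ← Real.rpow_add h2e0]
    simp
  set Bs : Set SL(2, ℝ) := {g | 3 / 4 * e ≤ |avP D h T0 (g, E) - m|} with hBs
  set Bs' : Set SL(2, ℝ) := {g | e / 2 ≤ |avP D h T0 (g, E) - m|} with hBs'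
  -- time
  set τ : ℝ := e2 * Real.log R with hτ
  have hlog : T0 / e2 * (8 / e + 2) ≤ Real.log R := (Real.le_log_iff_exp_le hR0).2 hR3
  have hτT : T0 * (8 / e + 2) ≤ τ := by
    have h1 := mul_le_mul_of_nonneg_left hlog he2.le
    calc T0 * (8 / e + 2) = e2 * (T0 / e2 * (8 / e + 2)) := by field_simp
      _ ≤ τ := h1
  have h8e : 0 < 8 / e := by positivity
  have hτ0 : 0 < τ := lt_of_lt_of_le (by positivity) hτT
  set n : ℕ := ⌊τ / T0⌋₊ with hn
  have hn1 : (n : ℝ) * T0 ≤ τ := by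
    have h1 : (n : ℝ) ≤ τ / T0 := Nat.floor_le (by positivity)
    rwa [le_div_iff₀ hT00] at h1
  have hn2 : τ ≤ ((n : ℝ) + 1) * T0 := by
    have h1 : τ / T0 < (n : ℝ) + 1 := Nat.lt_floor_add_one _
    rw [div_lt_iff₀ hT00] at h1
    exact h1.le
  have hτT' : 8 / e + 2 ≤ τ / T0 := by
    rw [le_div_iff₀ hT00]
    linarith
  have hn3 : 8 / e + 1 ≤ (n : ℝ) := by
    have h1 : τ / T0 < (n : ℝ) + 1 := Nat.lt_floor_add_one _
    linarith
  have hn4 : 8 ≤ e * n := by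
    have h1 : 8 / e ≤ (n : ℝ) := by linarith
    rw [div_le_iff₀ he] at h1
    linarith
  have hn5 : τ / (2 * T0) ≤ (n : ℝ) := by
    have h1 : τ / T0 < (n : ℝ) + 1 := Nat.lt_floor_add_one _
    have h2 : τ / (2 * T0) = (τ / T0) / 2 := by field_simp
    rw [h2]
    linarith
  -- counting
  have hcount : ∀ g : SL(2, ℝ), (g, E) ∈ BadP D Fd h e τ → (2 * Real.exp 1) ^ n ≤ z ^ (nbd (D.fl E T0) Bs n g) := by
    intro g hg
    have hg' : e ≤ |avP D h τ (g, E) - m| := hg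
    have hφc : Continuous fun t => h (D.fl E t g • I) - m := (hhc.comp ((hfl g).smul continuous_const)).sub continuous_const
    have hφb : ∀ t, |h (D.fl E t g • I) - m| ≤ 1 := by
      intro t
      have h1 := hh.bd (D.fl E t g • I)
      rw [abs_le]
      exact ⟨by linarith [h1.1], by linarith [h1.2]⟩
    have hbig : e * τ ≤ |∫ t in (0 : ℝ)..τ, (h (D.fl E t g • I) - m)| := by
      rw [RLL_av D h hhc E τ m g (hfl g) hτ0]
      nlinarith
    have h1 := hRWI (fun t => h (D.fl E t g • I) - m) e T0 τ n hφc hφb he hT00 hn1 hn2 hn4 hbig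
    have h2 : ((Finset.range n).filter fun k : ℕ => 3 / 4 * e * T0 ≤ |∫ t in (k * T0)..((k + 1) * T0), (h (D.fl E t g • I) - m)|).card ≤
        nbd (D.fl E T0) Bs n g := by
      rw [RLL_nbd D E T0 Bs hadd hzero n g]
      refine Finset.card_le_card fun k hk => ?_
      rw [Finset.mem_filter] at hk ⊢
      refine ⟨hk.1, ?_⟩
      have h3 := hk.2
      have h4 : ∫ t in (k * T0)..((k + 1) * T0), (h (D.fl E t g • I) - m) =
          ∫ t in (0 : ℝ)..T0, (h (D.fl E t (D.fl E (k * T0) g) • I) - m) := by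
        have h5 := intervalIntegral.integral_comp_add_right (a := 0) (b := T0) (fun t => h (D.fl E t g • I) - m) (k * T0)
        rw [zero_add, show T0 + (k : ℝ) * T0 = (k + 1) * T0 by ring] at h5
        rw [← h5]
        refine intervalIntegral.integral_congr fun t _ => ?_
        show h (D.fl E (t + k * T0) g • I) - m = _
        rw [hadd]
      rw [h4, RLL_av D h hhc E T0 m _ (hfl _) hT00] at h3
      show 3 / 4 * e ≤ |avP D h T0 (D.fl E (k * T0) g, E) - m|
      have h6 : T0 * (3 / 4 * e) ≤ T0 * |avP D h T0 (D.fl E (k * T0) g, E) - m| := by linarith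
      exact le_of_mul_le_mul_left h6 hT00
    have h3 : e / 8 * n ≤ (nbd (D.fl E T0) Bs n g : ℝ) := h1.trans (by exact_mod_cast h2)
    have h4 : z ^ (e / 8 * n) ≤ z ^ (nbd (D.fl E T0) Bs n g : ℝ) := Real.rpow_le_rpow_of_exponent_le hz1 h3
    rw [Real.rpow_natCast] at h4
    have h5 : z ^ (e / 8 * n) = (2 * Real.exp 1) ^ n := by
      rw [hz, ← Real.rpow_mul h2e0.le]
      have h6 : 8 / e * (e / 8 * n) = (n : ℝ) := by field_simp
      rw [h6, Real.rpow_natCast]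
    rwa [h5] at h4
  -- the first hypothesis of RLC
  have hyp1 : ∀ (γ : ℝ → SL(2, ℝ)) (x b c ℓ x' b' c' ℓ' : ℝ → ℝ), RN C F 2 D E γ x b c ℓ →
      RN C F 2 D E (fun v => D.fl E T0 (γ v)) x' b' c' ℓ' → ∀ u w : ℝ, |ℓ' w - ℓ' u| ≤ 2 * l0 → γ u ∈ Bs → γ w ∈ Bs' := by
    intro γ x b c ℓ x' b' c' ℓ' h1 h2 u w huw hu
    have hk2 := hLVA k C F D hF1 hFM h Lh hLh0 hLh E T0 γ x b c ℓ x' b' c' ℓ' hEd hT0 h1 h2
    obtain ⟨a1, a2⟩ := abs_le.1 huw
    have hclose : |avP D h T0 (γ u, E) - avP D h T0 (γ w, E)| ≤ e / 4 := by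
      rcases le_total u w with h3 | h3
      · refine (hk2 u w h3 (by linarith)).trans ?_
        have h4 : F * Lh * (ℓ' w - ℓ' u) ≤ F * Lh * (2 * l0) := mul_le_mul_of_nonneg_left a2 (by positivity)
        linarith
      · rw [abs_sub_comm]
        refine (hk2 w u h3 (by linarith)).trans ?_
        have h4 : F * Lh * (ℓ' u - ℓ' w) ≤ F * Lh * (2 * l0) := mul_le_mul_of_nonneg_left (by linarith) (by positivity)
        linarith
    have hu' : 3 / 4 * e ≤ |avP D h T0 (γ u, E) - m| := hu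
    show e / 2 ≤ |avP D h T0 (γ w, E) - m|
    have h5 : |avP D h T0 (γ u, E) - m| ≤ |avP D h T0 (γ u, E) - avP D h T0 (γ w, E)| + |avP D h T0 (γ w, E) - m| :=
      abs_sub_le _ _ _
    linarith
  have hyp2 : ∀ (γ : ℝ → SL(2, ℝ)) (x b c ℓ : ℝ → ℝ), RN C F 2 D E γ x b c ℓ → ∀ v v' : ℝ, v < v' → l0 ≤ ℓ v' - ℓ v →
      ℓ v' - ℓ v ≤ 2 * l0 → volume {u : ℝ | u ∈ Icc v v' ∧ γ u ∈ Bs'} ≤ ENNReal.ofReal (v0 * (v' - v)) := by
    intro γ x b c ℓ h1 v v' h2 h3 h4
    exact hLUW k C F D hF1 hFM Fd h (e / 2) v0 l0 T0 E0 E γ x b c ℓ v v' hEd hl0 hl0a hv0.le hU hEE h1 h2 h3 h4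
  have hmain := hLLC k C F D hF1 hFM E T0 l0 v0 z Bs Bs' hEd hT0 hl0 hl0a hv0.le hz1 hyp1 hyp2 n γ x b c ℓ v v' hγ hvv hl
  have hvv0 : 0 ≤ v' - v := by linarith
  set a : ℝ := ((2 * Real.exp 1) ^ n)⁻¹ with ha
  have ha0 : 0 < a := by positivity
  calc ∫⁻ u in Icc v v', (BadP D Fd h e τ).indicator (fun _ => 1) (γ u, E)
      ≤ ∫⁻ u in Icc v v', ENNReal.ofReal a * ENNReal.ofReal (z ^ nbd (D.fl E T0) Bs n (γ u)) := by
        refine lintegral_mono fun u => ?_
        by_cases hu : (γ u, E) ∈ BadP D Fd h e τ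
        · rw [indicator_of_mem hu, ← ENNReal.ofReal_mul ha0.le, ← ENNReal.ofReal_one]
          refine ENNReal.ofReal_le_ofReal ?_
          have h1 := hcount _ hu
          calc (1 : ℝ) = a * (2 * Real.exp 1) ^ n := by
                rw [ha, inv_mul_cancel₀ (by positivity)]
            _ ≤ a * z ^ nbd (D.fl E T0) Bs n (γ u) := mul_le_mul_of_nonneg_left h1 ha0.le
        · rw [indicator_of_notMem hu]
          exact zero_le
    _ = ENNReal.ofReal a * ∫⁻ u in Icc v v', ENNReal.ofReal (z ^ nbd (D.fl E T0) Bs n (γ u)) :=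
        lintegral_const_mul' _ _ ENNReal.ofReal_ne_top
    _ ≤ ENNReal.ofReal a * ENNReal.ofReal ((1 + z * v0) ^ n * (v' - v)) := by gcongr
    _ = ENNReal.ofReal (a * ((1 + z * v0) ^ n * (v' - v))) := (ENNReal.ofReal_mul ha0.le).symm
    _ ≤ ENNReal.ofReal (R ^ (-(2 * (e2 / (4 * T0)))) * (v' - v)) := by
        refine ENNReal.ofReal_le_ofReal ?_
        rw [hzv, ← mul_assoc]
        refine mul_le_mul_of_nonneg_right ?_ hvv0
        have h1 : a * (1 + 1 : ℝ) ^ n = Real.exp (-(n : ℝ)) := by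
          rw [ha, mul_pow, mul_inv, ← Real.exp_nat_mul, mul_one, Real.exp_neg]
          have h2 : ((2 : ℝ) ^ n) ≠ 0 := by positivity
          rw [one_add_one_eq_two]
          field_simp
        rw [h1, Real.rpow_def_of_pos hR0]
        refine Real.exp_le_exp.2 ?_
        have h3 : Real.log R * -(2 * (e2 / (4 * T0))) = -(τ / (2 * T0)) := by
          rw [hτ]
          field_simp
          ring
        rw [h3]
        linarith

end Pool.Agent.VN
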