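import Pool.Agent.helper84.VN.Spec4n

/-!
# Project VN, row UA4: one unit of the flow from a centred difference
-/

set_option autoImplicit false

open scoped MatrixGroups ContDiff Topology UpperHalfPlane ComplexConjugate ENNReal
open UpperHalfPlane MeasureTheory Filter Set

namespace Pool.Agent.VN

open Pool.Agent.RS Pool.Agent.VQ
open Pool.Agent.VQE (nm)

theorem UA4_pt {C r q J W j w δ : ℝ} (hC : 1 ≤ C) (hr : 1 / C ≤ r ∧ r ≤ C) (hq : 1 / C ≤ q ∧ q ≤ C)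
    (hj : |j - r ^ 2 * W| ≤ δ) (hw : |w - r ^ 2 * q * J| ≤ δ) :
    0 ≤ (C ^ 2 + C ^ 3 + 2) * (J ^ 2 + W ^ 2 + δ ^ 2) + (2 * J * j + 2 * W * w) := by
  have hCi : 0 < 1 / C := by positivity
  have hr0 : 0 < r := hCi.trans_le hr.1
  have hq0 : 0 < q := hCi.trans_le hq.1
  obtain ⟨a, ha⟩ : ∃ a, a = j - r ^ 2 * W := ⟨_, rfl⟩
  obtain ⟨b, hb⟩ : ∃ b, b = w - r ^ 2 * q * J := ⟨_, rfl⟩
  have ea : j = r ^ 2 * W + a := by rw [ha]; ring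
  have eb : w = r ^ 2 * q * J + b := by rw [hb]; ring
  rw [← ha] at hj
  rw [← hb] at hw
  have ha2 : a ^ 2 ≤ δ ^ 2 := sq_le_sq' (abs_le.1 hj).1 (abs_le.1 hj).2
  have hb2 : b ^ 2 ≤ δ ^ 2 := sq_le_sq' (abs_le.1 hw).1 (abs_le.1 hw).2
  have h1 : r ^ 2 * (1 + q) ≤ C ^ 2 + C ^ 3 := by
    have h2 : r ^ 2 ≤ C ^ 2 := pow_le_pow_left₀ hr0.le hr.2 2
    calc r ^ 2 * (1 + q) ≤ C ^ 2 * (1 + C) := mul_le_mul h2 (by linarith [hq.2]) (by linarith) (by positivity)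
      _ = C ^ 2 + C ^ 3 := by ring
  have h2 : 0 ≤ r ^ 2 * (1 + q) := by positivity
  have h3 : -(J ^ 2 + W ^ 2) ≤ 2 * J * W := by nlinarith [sq_nonneg (J + W)]
  have h4 : -((C ^ 2 + C ^ 3) * (J ^ 2 + W ^ 2)) ≤ r ^ 2 * (1 + q) * (2 * J * W) := by
    have h5 : r ^ 2 * (1 + q) * (J ^ 2 + W ^ 2) ≤ (C ^ 2 + C ^ 3) * (J ^ 2 + W ^ 2) :=
      mul_le_mul_of_nonneg_right h1 (by positivity)
    have h6 : r ^ 2 * (1 + q) * (-(J ^ 2 + W ^ 2)) ≤ r ^ 2 * (1 + q) * (2 * J * W) := mul_le_mul_of_nonneg_left h3 h2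
    linarith
  have h5 : -(J ^ 2 + δ ^ 2) ≤ 2 * J * a := by nlinarith [sq_nonneg (J + a)]
  have h6 : -(W ^ 2 + δ ^ 2) ≤ 2 * W * b := by nlinarith [sq_nonneg (W + b)]
  have h7 : 0 ≤ (C ^ 2 + C ^ 3) * δ ^ 2 := by positivity
  have e : 2 * J * j + 2 * W * w = r ^ 2 * (1 + q) * (2 * J * W) + 2 * J * a + 2 * W * b := by
    rw [ea, eb]; ring
  rw [e]
  nlinarith [sq_nonneg J, sq_nonneg W, sq_nonneg δ]

theorem UA4_mono {t : ℝ} {f f' : ℝ → ℝ} (hf : ∀ s ∈ Icc 0 t, HasDerivAt f (f' s) s) (h0 : ∀ s ∈ Icc 0 t, 0 ≤ f' s) :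
    ∀ s ∈ Icc 0 t, f 0 ≤ f s := by
  intro s hs
  have hm : MonotoneOn f (Icc 0 t) := by
    refine monotoneOn_of_deriv_nonneg (convex_Icc 0 t) (fun u hu => (hf u hu).continuousAt.continuousWithinAt)
      (fun u hu => ?_) (fun u hu => ?_)
    · exact (hf u (interior_subset hu)).differentiableAt.differentiableWithinAt
    · rw [(hf u (interior_subset hu)).deriv]
      exact h0 u (interior_subset hu)
  exact hm ⟨le_rfl, hs.1.trans hs.2⟩ hs hs.1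

theorem UA4_back {C δ t : ℝ} {J W j w r q : ℝ → ℝ} (hC : 1 ≤ C)
    (hJ : ∀ s ∈ Icc 0 t, HasDerivAt J (j s) s) (hW : ∀ s ∈ Icc 0 t, HasDerivAt W (w s) s)
    (hr : ∀ s ∈ Icc 0 t, 1 / C ≤ r s ∧ r s ≤ C) (hq : ∀ s ∈ Icc 0 t, 1 / C ≤ q s ∧ q s ≤ C)
    (hj : ∀ s ∈ Icc 0 t, |j s - r s ^ 2 * W s| ≤ δ) (hw : ∀ s ∈ Icc 0 t, |w s - r s ^ 2 * q s * J s| ≤ δ) :
    ∀ s ∈ Icc 0 t, J 0 ^ 2 + W 0 ^ 2 ≤ Real.exp ((C ^ 2 + C ^ 3 + 2) * s) * (J s ^ 2 + W s ^ 2 + δ ^ 2) := by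
  intro s hs
  have h1 := UA4_mono (t := t) (f := fun s => Real.exp ((C ^ 2 + C ^ 3 + 2) * s) * (J s ^ 2 + W s ^ 2 + δ ^ 2))
    (f' := fun s => Real.exp ((C ^ 2 + C ^ 3 + 2) * s) * ((C ^ 2 + C ^ 3 + 2) * (J s ^ 2 + W s ^ 2 + δ ^ 2) + (2 * J s * j s + 2 * W s * w s)))
    (fun u hu => by
      have e1 : HasDerivAt (fun s => Real.exp ((C ^ 2 + C ^ 3 + 2) * s)) (Real.exp ((C ^ 2 + C ^ 3 + 2) * u) * ((C ^ 2 + C ^ 3 + 2) * 1)) u :=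
        ((hasDerivAt_id u).const_mul _).exp
      have e2 : HasDerivAt (fun s => J s ^ 2 + W s ^ 2 + δ ^ 2) (2 * J u * j u + 2 * W u * w u) u := by
        have e3 := (((hJ u hu).pow 2).add ((hW u hu).pow 2)).add_const (δ ^ 2)
        refine e3.congr_deriv ?_
        simp
      refine (e1.mul e2).congr_deriv ?_
      ring) (fun u hu => mul_nonneg (Real.exp_pos _).le (UA4_pt hC (hr u hu) (hq u hu) (hj u hu) (hw u hu))) s hs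
  have h2 : Real.exp ((C ^ 2 + C ^ 3 + 2) * 0) * (J 0 ^ 2 + W 0 ^ 2 + δ ^ 2) = J 0 ^ 2 + W 0 ^ 2 + δ ^ 2 := by
    rw [mul_zero, Real.exp_zero, one_mul]
  change Real.exp ((C ^ 2 + C ^ 3 + 2) * 0) * (J 0 ^ 2 + W 0 ^ 2 + δ ^ 2) ≤ _ at h1
  rw [h2] at h1
  nlinarith [sq_nonneg δ]

theorem UA4_Q {t μ : ℝ} {J W j w : ℝ → ℝ} (ht : 0 ≤ t)
    (hJ : ∀ s ∈ Icc 0 t, HasDerivAt J (j s) s) (hW : ∀ s ∈ Icc 0 t, HasDerivAt W (w s) s)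
    (hμ : ∀ s ∈ Icc 0 t, μ ≤ j s * W s + J s * w s) : J 0 * W 0 + μ * t ≤ J t * W t := by
  have h1 := UA4_mono (t := t) (f := fun s => J s * W s - μ * s) (f' := fun s => j s * W s + J s * w s - μ)
    (fun u hu => by
      have e1 := (hJ u hu).mul (hW u hu)
      have e2 : HasDerivAt (fun s : ℝ => μ * s) (μ * 1) u := (hasDerivAt_id u).const_mul μ
      refine (e1.sub e2).congr_deriv ?_
      ring) (fun u hu => by
      have := hμ u hu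
      linarith) t ⟨ht, le_rfl⟩
  change J 0 * W 0 - μ * 0 ≤ J t * W t - μ * t at h1
  linarith

theorem UA4_Qpt {C r q J W j w δ eL N0 P : ℝ} (hC : 1 ≤ C) (hr : 1 / C ≤ r ∧ r ≤ C) (hq : 1 / C ≤ q ∧ q ≤ C)
    (hj : |j - r ^ 2 * W| ≤ δ) (hw : |w - r ^ 2 * q * J| ≤ δ) (hδ : 0 ≤ δ)
    (h : N0 ^ 2 / (2 * eL) ≤ J ^ 2 + W ^ 2 + δ ^ 2) (hP : |J| + |W| ≤ P) :
    1 / C ^ 3 * (N0 ^ 2 / (2 * eL)) - (δ ^ 2 + δ * P) ≤ j * W + J * w := by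
  have hC0 : 0 < C := by linarith
  have hCi : 0 < 1 / C := by positivity
  have hr0 : 0 < r := hCi.trans_le hr.1
  have hq0 : 0 < q := hCi.trans_le hq.1
  obtain ⟨a, ha⟩ : ∃ a, a = j - r ^ 2 * W := ⟨_, rfl⟩
  obtain ⟨b, hb⟩ : ∃ b, b = w - r ^ 2 * q * J := ⟨_, rfl⟩
  have ea : j = r ^ 2 * W + a := by rw [ha]; ring
  have eb : w = r ^ 2 * q * J + b := by rw [hb]; ring
  rw [← ha] at hj
  rw [← hb] at hw
  have h1 : 1 / C ^ 3 ≤ r ^ 2 := by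
    have h2 : (1 / C) ^ 2 ≤ r ^ 2 := pow_le_pow_left₀ hCi.le hr.1 2
    have h3 : 1 / C ^ 3 ≤ (1 / C) ^ 2 := by
      rw [div_pow, one_pow]
      exact one_div_le_one_div_of_le (by positivity) (pow_le_pow_right₀ hC (by norm_num))
    linarith
  have h2 : 1 / C ^ 3 ≤ r ^ 2 * q := by
    have h3 : (1 / C) ^ 2 * (1 / C) ≤ r ^ 2 * q :=
      mul_le_mul (pow_le_pow_left₀ hCi.le hr.1 2) hq.1 hCi.le (by positivity)
    have h4 : (1 / C) ^ 2 * (1 / C) = 1 / C ^ 3 := by field_simp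
    linarith
  have hc0 : 0 < 1 / C ^ 3 := by positivity
  have hc1 : 1 / C ^ 3 ≤ 1 := by
    rw [div_le_one (by positivity)]
    exact one_le_pow₀ hC
  have h3 : 1 / C ^ 3 * (J ^ 2 + W ^ 2) ≤ r ^ 2 * W ^ 2 + r ^ 2 * q * J ^ 2 := by
    have h5 := mul_le_mul_of_nonneg_right h1 (sq_nonneg W)
    have h6 := mul_le_mul_of_nonneg_right h2 (sq_nonneg J)
    linarith
  have h4 : 1 / C ^ 3 * (N0 ^ 2 / (2 * eL)) ≤ 1 / C ^ 3 * (J ^ 2 + W ^ 2) + δ ^ 2 := by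
    have h5 := mul_le_mul_of_nonneg_left h hc0.le
    have h6 : 1 / C ^ 3 * δ ^ 2 ≤ 1 * δ ^ 2 := mul_le_mul_of_nonneg_right hc1 (sq_nonneg δ)
    linarith
  have h5 : -(δ * |W|) ≤ a * W := by
    have h6 : |a * W| ≤ δ * |W| := by
      rw [abs_mul]
      exact mul_le_mul_of_nonneg_right hj (abs_nonneg _)
    linarith [(abs_le.1 h6).1]
  have h6 : -(δ * |J|) ≤ b * J := by
    have h7 : |b * J| ≤ δ * |J| := by
      rw [abs_mul]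
      exact mul_le_mul_of_nonneg_right hw (abs_nonneg _)
    linarith [(abs_le.1 h7).1]
  have h7 : δ * (|J| + |W|) ≤ δ * P := mul_le_mul_of_nonneg_left hP hδ
  have e : j * W + J * w = r ^ 2 * W ^ 2 + r ^ 2 * q * J ^ 2 + a * W + b * J := by
    rw [ea, eb]; ring
  rw [e]
  linarith

theorem UA4_n1 {A eL K3 K N0 ε δ N1 : ℝ} (heL : 1 ≤ eL) (hK3 : 1 ≤ K3) (hN0 : 0 ≤ N0)
    (hε : 0 ≤ ε) (hN1 : 0 ≤ N1) (hKs : K * (N0 + ε) ≤ 1) (hKa : 4 * eL * K3 * A ^ 2 ≤ K) (hKb : 4 * eL ≤ K)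
    (hKc : 1 + 4 * eL * K3 ≤ K) (hδ : δ = K3 * (A ^ 2 * (N0 + ε) ^ 2 + ε)) (h : N0 ^ 2 ≤ 2 * eL * (N1 + δ) ^ 2) :
    N0 ≤ K * (N1 + ε) := by
  have hδ0 : 0 ≤ δ := by rw [hδ]; positivity
  have h1 : N0 ≤ 2 * eL * (N1 + δ) := by
    have h2 : N0 ^ 2 ≤ (2 * eL * (N1 + δ)) ^ 2 := by
      have h3 : 0 ≤ (N1 + δ) ^ 2 := sq_nonneg _
      have h4 : 2 * eL ≤ (2 * eL) ^ 2 := by nlinarith
      calc N0 ^ 2 ≤ 2 * eL * (N1 + δ) ^ 2 := h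
        _ ≤ (2 * eL) ^ 2 * (N1 + δ) ^ 2 := mul_le_mul_of_nonneg_right h4 h3
        _ = (2 * eL * (N1 + δ)) ^ 2 := by ring
    exact (le_abs_self _).trans (abs_le_of_sq_le_sq h2 (by positivity))
  have hs : 0 ≤ N0 + ε := by linarith
  have h2 : 4 * eL * K3 * A ^ 2 * (N0 + ε) ≤ 1 := (mul_le_mul_of_nonneg_right hKa hs).trans hKs
  have h3 : 2 * eL * K3 * A ^ 2 * (N0 + ε) ^ 2 ≤ (N0 + ε) / 2 := by
    have h4 := mul_le_mul_of_nonneg_right h2 hs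
    nlinarith
  have h4 : 2 * eL * (N1 + δ) = 2 * eL * N1 + 2 * eL * K3 * A ^ 2 * (N0 + ε) ^ 2 + 2 * eL * K3 * ε := by
    rw [hδ]; ring
  have h5 : N0 ≤ 4 * eL * N1 + (1 + 4 * eL * K3) * ε := by
    rw [h4] at h1
    nlinarith
  have h6 := mul_le_mul_of_nonneg_right hKb hN1
  have h7 := mul_le_mul_of_nonneg_right hKc hε
  linarith

theorem UA4_n2 {A B C eL K3 K N0 ε δ Q0 Q1 t G : ℝ} (hA : 1 ≤ A) (hB : 1 ≤ B) (hC : 1 ≤ C) (heL : 1 ≤ eL) (hK3 : 1 ≤ K3)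
    (hK : 1 ≤ K) (hN0 : 0 ≤ N0) (hε : 0 ≤ ε) (hKs : K * (N0 + ε) ≤ 1) (ht1 : 1 ≤ t) (ht2 : t ≤ 2)
    (hδ : δ = K3 * (A ^ 2 * (N0 + ε) ^ 2 + ε)) (hG : G = 2 * K3 * A ^ 2 + B)
    (hKa : 2 * eL * C ^ 3 * (1 + 2 * (G * K3 * A ^ 2)) ≤ K) (hKb : 4 * (G * K3 * A ^ 2) + 2 * (G * K3) ≤ K)
    (h : Q0 + (1 / C ^ 3 * (N0 ^ 2 / (2 * eL)) - (δ ^ 2 + δ * (B * (N0 + ε)))) * t ≤ Q1) :
    Q0 + N0 ^ 2 / K - K * (ε * N0 + ε ^ 2) ≤ Q1 := by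
  have hK0 : 0 < K := by linarith
  have hA2 : 1 ≤ A ^ 2 := one_le_pow₀ hA
  have hG0 : 0 ≤ G := by rw [hG]; positivity
  obtain ⟨s, hs⟩ : ∃ s, s = N0 + ε := ⟨_, rfl⟩
  have hs0 : 0 ≤ s := by rw [hs]; linarith
  have hεs : ε ≤ s := by rw [hs]; linarith
  rw [← hs] at hKs hδ h
  have hs1 : s ≤ 1 := by nlinarith
  have hδ0 : 0 ≤ δ := by rw [hδ]; positivity
  have h1 : δ ≤ 2 * K3 * A ^ 2 * s := by
    rw [hδ]
    have h2 : s ^ 2 ≤ s := by nlinarith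
    have h3 : A ^ 2 * s ^ 2 ≤ A ^ 2 * s := mul_le_mul_of_nonneg_left h2 (by positivity)
    have h4 : ε ≤ A ^ 2 * s := by nlinarith
    have h5 : A ^ 2 * s ^ 2 + ε ≤ 2 * (A ^ 2 * s) := by linarith
    calc K3 * (A ^ 2 * s ^ 2 + ε) ≤ K3 * (2 * (A ^ 2 * s)) := mul_le_mul_of_nonneg_left h5 (by linarith)
      _ = 2 * K3 * A ^ 2 * s := by ring
  have h2 : δ ^ 2 + δ * (B * s) ≤ G * (δ * s) := by
    have h3 := mul_le_mul_of_nonneg_left h1 hδ0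
    rw [hG]
    nlinarith
  -- `δ s ≤ K3 A² s² / K + K3 ε s`
  have h3 : δ * s ≤ K3 * A ^ 2 * (s ^ 2 * (1 / K)) + K3 * (ε * s) := by
    have h4 : s ≤ 1 / K := by
      rw [le_div_iff₀ hK0]
      linarith
    have h5 : s ^ 2 * s ≤ s ^ 2 * (1 / K) := mul_le_mul_of_nonneg_left h4 (by positivity)
    have h6 : K3 * A ^ 2 * (s ^ 2 * s) ≤ K3 * A ^ 2 * (s ^ 2 * (1 / K)) := mul_le_mul_of_nonneg_left h5 (by positivity)
    rw [hδ]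
    nlinarith
  have hκ : 0 < 1 / K := by positivity
  have hκ1 : 1 / K ≤ 1 := by
    rw [div_le_one hK0]
    exact hK
  have h4 : s ^ 2 = N0 ^ 2 + (2 * (N0 * ε) + ε ^ 2) := by rw [hs]; ring
  have h5 : ε * s = ε * N0 + ε ^ 2 := by rw [hs]; ring
  have hD1 : 0 ≤ G * K3 * A ^ 2 := by positivity
  have hD2 : 0 ≤ G * K3 := by positivity
  have hne : 0 ≤ N0 * ε := by positivity
  have hee : 0 ≤ ε ^ 2 := by positivity
  have hb : 2 * (δ ^ 2 + δ * (B * s)) ≤ 2 * (G * K3 * A ^ 2) * (1 / K) * N0 ^ 2 + K * (ε * N0 + ε ^ 2) := by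
    have h6 : G * (δ * s) ≤ G * (K3 * A ^ 2 * (s ^ 2 * (1 / K)) + K3 * (ε * s)) := mul_le_mul_of_nonneg_left h3 hG0
    have h7 : G * (K3 * A ^ 2 * (s ^ 2 * (1 / K)) + K3 * (ε * s)) =
        G * K3 * A ^ 2 * (1 / K) * N0 ^ 2 + (G * K3 * A ^ 2) * ((1 / K) * (2 * (N0 * ε) + ε ^ 2)) + G * K3 * (ε * N0 + ε ^ 2) := by
      rw [h4, h5]; ring
    have h8 : (1 / K) * (2 * (N0 * ε) + ε ^ 2) ≤ 2 * (ε * N0 + ε ^ 2) := by
      have h9 : (1 / K) * (2 * (N0 * ε) + ε ^ 2) ≤ 1 * (2 * (N0 * ε) + ε ^ 2) :=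
        mul_le_mul_of_nonneg_right hκ1 (by positivity)
      nlinarith
    have h9 : (G * K3 * A ^ 2) * ((1 / K) * (2 * (N0 * ε) + ε ^ 2)) ≤ (G * K3 * A ^ 2) * (2 * (ε * N0 + ε ^ 2)) :=
      mul_le_mul_of_nonneg_left h8 hD1
    have h10 : (4 * (G * K3 * A ^ 2) + 2 * (G * K3)) * (ε * N0 + ε ^ 2) ≤ K * (ε * N0 + ε ^ 2) :=
      mul_le_mul_of_nonneg_right hKb (by nlinarith)
    nlinarith
  have ha : N0 ^ 2 / K + 2 * (G * K3 * A ^ 2) * (1 / K) * N0 ^ 2 ≤ 1 / C ^ 3 * (N0 ^ 2 / (2 * eL)) := by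
    have h6 : N0 ^ 2 / K + 2 * (G * K3 * A ^ 2) * (1 / K) * N0 ^ 2 = (1 + 2 * (G * K3 * A ^ 2)) / K * N0 ^ 2 := by
      field_simp
    have h7 : 1 / C ^ 3 * (N0 ^ 2 / (2 * eL)) = 1 / (2 * eL * C ^ 3) * N0 ^ 2 := by
      field_simp
    rw [h6, h7]
    refine mul_le_mul_of_nonneg_right ?_ (sq_nonneg _)
    rw [div_le_div_iff₀ hK0 (by positivity)]
    linarith
  have h6 : 0 ≤ 1 / C ^ 3 * (N0 ^ 2 / (2 * eL)) := by positivity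
  have h7 : 0 ≤ δ ^ 2 + δ * (B * s) := by positivity
  have h8 : 1 / C ^ 3 * (N0 ^ 2 / (2 * eL)) - 2 * (δ ^ 2 + δ * (B * s)) ≤
      (1 / C ^ 3 * (N0 ^ 2 / (2 * eL)) - (δ ^ 2 + δ * (B * s))) * t := by
    nlinarith
  linarith

theorem UA4_proof (hGN4 : GN4_stmt) (hJW4 : JW4_stmt) (hCN4 : CN4_stmt) : UA4_stmt := by
  intro k C
  by_cases hC : 1 ≤ C
  swap
  · exact ⟨1, le_rfl, fun D hF => absurd hF.C1 hC⟩
  obtain ⟨K1, hK1, h1⟩ := hCN4 k C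
  obtain ⟨K2, hK2, h2⟩ := hGN4 k C
  obtain ⟨K3, hK3, h3⟩ := hJW4 k C
  obtain ⟨A, hAd⟩ : ∃ A, A = K1 * Real.exp (2 * K2) := ⟨_, rfl⟩
  have he2 : 1 ≤ Real.exp (2 * K2) := Real.one_le_exp (by linarith)
  have hA : 1 ≤ A := by rw [hAd]; nlinarith
  obtain ⟨B, hBd⟩ : ∃ B, B = K1 * A := ⟨_, rfl⟩
  have hB : 1 ≤ B := by rw [hBd]; nlinarith
  obtain ⟨eL, heLd⟩ : ∃ eL, eL = Real.exp ((C ^ 2 + C ^ 3 + 2) * 2) := ⟨_, rfl⟩
  have heL : 1 ≤ eL := by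
    rw [heLd]
    exact Real.one_le_exp (by positivity)
  obtain ⟨G, hGd⟩ : ∃ G, G = 2 * K3 * A ^ 2 + B := ⟨_, rfl⟩
  have hG0 : 0 ≤ G := by rw [hGd]; positivity
  obtain ⟨K, hKd⟩ : ∃ K, K = 10 * B + 4 * eL * K3 * A ^ 2 + (1 + 4 * eL * K3) + 4 * eL + 2 * eL * C ^ 3 * (1 + 2 * (G * K3 * A ^ 2)) +
    (4 * (G * K3 * A ^ 2) + 2 * (G * K3)) := ⟨_, rfl⟩
  have p1 : 0 ≤ 4 * eL * K3 * A ^ 2 := by positivity
  have p2 : 0 ≤ 1 + 4 * eL * K3 := by positivity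
  have p3 : 0 ≤ 2 * eL * C ^ 3 * (1 + 2 * (G * K3 * A ^ 2)) := by positivity
  have p4 : 0 ≤ 4 * (G * K3 * A ^ 2) + 2 * (G * K3) := by positivity
  have hKB : 10 * B ≤ K := by rw [hKd]; linarith
  have hK : 1 ≤ K := by linarith
  have hK0 : 0 < K := by linarith
  refine ⟨K, hK, fun D hF E E' t ε J0 W0 N0 J1 W1 g g' x y hE hE' hEE ht1 ht2 hx hy hx0 hx1 hnx hJ0 hW0 hN0 hKs hJ1 hW1 => ?_⟩
  have hε : 0 ≤ ε := (abs_nonneg _).trans hEE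
  have hN00 : 0 ≤ N0 := by
    rw [hN0]
    unfold NX
    positivity
  have hs0 : 0 ≤ N0 + ε := by linarith
  have hABle : A ≤ B := by rw [hBd]; nlinarith
  have hnm0 : ∀ z : SL(2, ℝ), 0 ≤ nm z := fun z => by
    unfold Pool.Agent.VQE.nm
    exact le_max_of_le_left (le_max_of_le_left (abs_nonneg _))
  have hK1B : K1 ≤ B := by rw [hBd]; nlinarith
  obtain ⟨c1, -, -⟩ := h1 D hF
  -- the size of `x`
  have hnx1 : nm x ≤ K1 * N0 := by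
    have h4 : nm x ≤ 1 / K1 := hnx.trans (one_div_le_one_div_of_le (by linarith) (by linarith))
    have h5 := (c1 E g x hE h4).2
    rw [← hN0, hx0, sub_self, abs_zero, add_zero] at h5
    exact h5
  have hXt : ∀ s ∈ Icc 0 t, nm (Xt D E E' g g' s) ≤ A * (N0 + ε) := by
    intro s hs
    have h4 := h2 D hF E E' s ε g g' hE hE' hEE
    rw [← hx, abs_of_nonneg hs.1] at h4
    have h5 : Real.exp (K2 * s) ≤ Real.exp (2 * K2) := by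
      refine Real.exp_le_exp.2 ?_
      have := hs.2
      nlinarith
    have h6 : nm x + ε ≤ K1 * (N0 + ε) := by nlinarith
    calc nm (Xt D E E' g g' s) ≤ (nm x + ε) * Real.exp (K2 * s) := h4
      _ ≤ (K1 * (N0 + ε)) * Real.exp (2 * K2) :=
          mul_le_mul h6 h5 (Real.exp_pos _).le (by positivity)
      _ = A * (N0 + ε) := by rw [hAd]; ring
  have hAs : A * (N0 + ε) ≤ 1 / 10 := by
    have h4 : 10 * A * (N0 + ε) ≤ 1 := (mul_le_mul_of_nonneg_right (by linarith) hs0).trans hKs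
    linarith
  have hAs1 : A * (N0 + ε) ≤ 1 / K1 := by
    rw [le_div_iff₀ (by linarith)]
    have h4 : B * (N0 + ε) ≤ 1 := (mul_le_mul_of_nonneg_right (by linarith) hs0).trans hKs
    rw [hBd] at h4
    linarith
  -- the functions
  obtain ⟨δ, hδ⟩ : ∃ δ, δ = K3 * (A ^ 2 * (N0 + ε) ^ 2 + ε) := ⟨_, rfl⟩
  have hδ0 : 0 ≤ δ := by rw [hδ]; positivity
  obtain ⟨J, hJd⟩ : ∃ J : ℝ → ℝ, J = fun s => JX D.U E (D.fl E s g) (Xt D E E' g g' s) := ⟨_, rfl⟩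
  obtain ⟨W, hWd⟩ : ∃ W : ℝ → ℝ, W = fun s => WX D.U E (D.fl E s g) (Xt D E E' g g' s) := ⟨_, rfl⟩
  obtain ⟨r, hrd⟩ : ∃ r : ℝ → ℝ, r = fun s => rho D.U E (D.fl E s g) := ⟨_, rfl⟩
  obtain ⟨q, hqd⟩ : ∃ q : ℝ → ℝ, q = fun s => -Kg D.U E (D.fl E s g) := ⟨_, rfl⟩
  have hr : ∀ s ∈ Icc 0 t, 1 / C ≤ r s ∧ r s ≤ C := fun s _ => by rw [hrd]; exact hF.ro E _ hE
  have hq : ∀ s ∈ Icc 0 t, 1 / C ≤ q s ∧ q s ≤ C := fun s _ => by rw [hqd]; exact hF.kg E _ hE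
  have hder : ∀ s : ℝ, ∃ j w : ℝ, s ∈ Icc 0 t → HasDerivAt J j s ∧ HasDerivAt W w s ∧ |j - r s ^ 2 * W s| ≤ δ ∧ |w - r s ^ 2 * q s * J s| ≤ δ := by
    intro s
    by_cases hs : s ∈ Icc 0 t
    swap
    · exact ⟨0, 0, fun h => absurd h hs⟩
    have h4 := hXt s hs
    obtain ⟨j, w, x', d1, d2, -, d4, d5, -⟩ := h3 D hF E E' s g g' hE hE' (h4.trans hAs)
    refine ⟨j, w, fun _ => ⟨by rw [hJd]; exact d1, by rw [hWd]; exact d2, ?_, ?_⟩⟩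
    · have h5 : K3 * (nm (Xt D E E' g g' s) ^ 2 + |E' - E|) ≤ δ := by
        rw [hδ]
        have h6 : nm (Xt D E E' g g' s) ^ 2 ≤ (A * (N0 + ε)) ^ 2 := pow_le_pow_left₀ (hnm0 _) h4 2
        have h7 : nm (Xt D E E' g g' s) ^ 2 + |E' - E| ≤ A ^ 2 * (N0 + ε) ^ 2 + ε := by
          rw [mul_pow] at h6
          linarith
        exact mul_le_mul_of_nonneg_left h7 (by linarith)
      rw [hrd, hWd]
      exact d4.trans h5
    · have h5 : K3 * (nm (Xt D E E' g g' s) ^ 2 + |E' - E|) ≤ δ := by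
        rw [hδ]
        have h6 : nm (Xt D E E' g g' s) ^ 2 ≤ (A * (N0 + ε)) ^ 2 := pow_le_pow_left₀ (hnm0 _) h4 2
        have h7 : nm (Xt D E E' g g' s) ^ 2 + |E' - E| ≤ A ^ 2 * (N0 + ε) ^ 2 + ε := by
          rw [mul_pow] at h6
          linarith
        exact mul_le_mul_of_nonneg_left h7 (by linarith)
      have h8 : w - r s ^ 2 * q s * J s = w + rho D.U E (D.fl E s g) ^ 2 * Kg D.U E (D.fl E s g) * JX D.U E (D.fl E s g) (Xt D E E' g g' s) := by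
        rw [hrd, hqd, hJd]
        ring
      rw [h8]
      exact d5.trans h5
  choose j w hjw using hder
  have hJ : ∀ s ∈ Icc 0 t, HasDerivAt J (j s) s := fun s hs => (hjw s hs).1
  have hW : ∀ s ∈ Icc 0 t, HasDerivAt W (w s) s := fun s hs => (hjw s hs).2.1
  have hj : ∀ s ∈ Icc 0 t, |j s - r s ^ 2 * W s| ≤ δ := fun s hs => (hjw s hs).2.2.1
  have hw : ∀ s ∈ Icc 0 t, |w s - r s ^ 2 * q s * J s| ≤ δ := fun s hs => (hjw s hs).2.2.2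
  have ht0 : (0 : ℝ) ≤ t := by linarith
  have ht : t ∈ Icc 0 t := ⟨ht0, le_rfl⟩
  have eX0 : Xt D E E' g g' 0 = x := by
    unfold Xt
    rw [hF.zero, hF.zero, hx]
  have eJ0 : J 0 = J0 := by
    rw [hJd, hJ0]
    change JX D.U E (D.fl E 0 g) (Xt D E E' g g' 0) = _
    rw [eX0, hF.zero]
  have eW0 : W 0 = W0 := by
    rw [hWd, hW0]
    change WX D.U E (D.fl E 0 g) (Xt D E E' g g' 0) = _
    rw [eX0, hF.zero]
  have eJ1 : J t = J1 := by rw [hJd, hJ1, hy]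
  have eW1 : W t = W1 := by rw [hWd, hW1, hy]
  have eN0 : N0 = |J0| + |W0| := by
    rw [hN0, hJ0, hW0]
    rfl
  have hNs : ∀ s ∈ Icc 0 t, |J s| + |W s| ≤ B * (N0 + ε) := by
    intro s hs
    have h4 := hXt s hs
    have h5 := (c1 E (D.fl E s g) (Xt D E E' g g' s) hE (h4.trans hAs1)).1
    have h6 : NX D.U E (D.fl E s g) (Xt D E E' g g' s) = |J s| + |W s| := by
      rw [hJd, hWd]
      rfl
    rw [h6] at h5
    calc |J s| + |W s| ≤ K1 * nm (Xt D E E' g g' s) := h5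
      _ ≤ K1 * (A * (N0 + ε)) := mul_le_mul_of_nonneg_left h4 (by linarith)
      _ = B * (N0 + ε) := by rw [hBd]; ring
  have hback := UA4_back hC hJ hW hr hq hj hw
  have hN2 : N0 ^ 2 ≤ 2 * (J 0 ^ 2 + W 0 ^ 2) := by
    rw [eN0, eJ0, eW0]
    nlinarith [sq_nonneg (|J0| - |W0|), sq_abs J0, sq_abs W0]
  have hexp : ∀ s ∈ Icc 0 t, Real.exp ((C ^ 2 + C ^ 3 + 2) * s) ≤ eL := by
    intro s hs
    rw [heLd]
    refine Real.exp_le_exp.2 (mul_le_mul_of_nonneg_left ?_ (by positivity))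
    linarith [hs.2]
  have hlow : ∀ s ∈ Icc 0 t, N0 ^ 2 / (2 * eL) ≤ J s ^ 2 + W s ^ 2 + δ ^ 2 := by
    intro s hs
    rw [div_le_iff₀ (by positivity)]
    have h4 := hback s hs
    have h5 := mul_le_mul_of_nonneg_right (hexp s hs) (show 0 ≤ J s ^ 2 + W s ^ 2 + δ ^ 2 by positivity)
    linarith
  refine ⟨?_, ?_, ?_, ?_⟩
  · rw [hy]
    refine (hXt t ht).trans (mul_le_mul_of_nonneg_right (by linarith) hs0)
  · have h4 := hlow t ht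
    rw [div_le_iff₀ (by positivity), eJ1, eW1] at h4
    have h5 : N0 ^ 2 ≤ 2 * eL * (|J1| + |W1| + δ) ^ 2 := by
      have h6 : J1 ^ 2 + W1 ^ 2 + δ ^ 2 ≤ (|J1| + |W1| + δ) ^ 2 := by
        have a1 := abs_nonneg J1
        have a2 := abs_nonneg W1
        have a3 := mul_nonneg a1 a2
        have a4 := mul_nonneg a1 hδ0
        have a5 := mul_nonneg a2 hδ0
        nlinarith [sq_abs J1, sq_abs W1]
      have h7 := mul_le_mul_of_nonneg_left h6 (show 0 ≤ 2 * eL by positivity)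
      linarith
    exact UA4_n1 heL hK3 hN00 hε (by positivity) hKs (by rw [hKd]; linarith) (by rw [hKd]; linarith)
      (by rw [hKd]; linarith) hδ h5
  · have h4 := hNs t ht
    rw [eJ1, eW1] at h4
    exact h4.trans (mul_le_mul_of_nonneg_right (by linarith) hs0)
  · have h4 := UA4_Q ht0 hJ hW (μ := 1 / C ^ 3 * (N0 ^ 2 / (2 * eL)) - (δ ^ 2 + δ * (B * (N0 + ε)))) fun s hs =>
      UA4_Qpt hC (hr s hs) (hq s hs) (hj s hs) (hw s hs) hδ0 (hlow s hs) (hNs s hs)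
    rw [eJ0, eW0, eJ1, eW1] at h4
    exact UA4_n2 hA hB hC heL hK3 hK hN00 hε hKs ht1 ht2 hδ hGd (by rw [hKd]; linarith) (by rw [hKd]; linarith) h4

end Pool.Agent.VN
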